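import Mathlib

/-!
Negative half of MP_657af9_ag: computation of the cohomology of a derived functor.
-/

open CategoryTheory Limits

namespace Pool.Agent.H72.MP

noncomputable section

variable {A B : Type*} [Category A] [Abelian A] [HasDerivedCategory A]
  [Category B] [Abelian B] [HasDerivedCategory B]

/-- The cohomology of a right derived functor is computed by an injective resolution. -/
lemma derived_homology (F : A ⥤ B) [F.Additive] [EnoughInjectives A]
    (K : CochainComplex.Plus A) (n : ℤ) :
    ∃ (I : CochainComplex A ℤ) (j : K.obj ⟶ I) (_ : QuasiIso j),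
      Nonempty ((DerivedCategory.homologyFunctor B n).obj (DerivedCategory.Plus.ι.obj
        (F.rightDerivedFunctorPlus.obj (DerivedCategory.Plus.Q.obj K))) ≅
          ((F.mapHomologicalComplex (ComplexShape.up ℤ)).obj I).homology n) := by
  obtain ⟨m, hm⟩ := K.property
  obtain ⟨L, hL, i, hi⟩ := CochainComplex.Plus.exists_quasiIso_injective K m
  let L' : CochainComplex.Plus A := (InjectiveObject.ι A).mapCochainComplexPlus.obj L
  have hi' : QuasiIso i.hom := hi
  have h1 : IsIso (DerivedCategory.Plus.Q.map i) := by
    have h2 : IsIso (DerivedCategory.Plus.ι.map (DerivedCategory.Plus.Q.map i)) := by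
      have h3 : IsIso (DerivedCategory.Q.map i.hom) := inferInstance
      exact h3
    exact isIso_of_reflects_iso _ DerivedCategory.Plus.ι
  refine ⟨L'.obj, i.hom, hi', ?_⟩
  let e1 := F.rightDerivedFunctorPlus.mapIso (asIso (DerivedCategory.Plus.Q.map i))
  let u := F.rightDerivedFunctorPlusUnit.app ((HomotopyCategory.Plus.quotient A).obj L')
  let e2 := e1 ≪≫ (asIso u).symm
  let e3 := DerivedCategory.Plus.ι.mapIso e2
  exact ⟨(DerivedCategory.homologyFunctor B n).mapIso e3 ≪≫
    (DerivedCategory.homologyFunctorFactors B n).app
      ((F.mapHomologicalComplex (ComplexShape.up ℤ)).obj L'.obj)⟩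

end

end Pool.Agent.H72.MP
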