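import Pool.Agent.H72.MP.Exact
import Pool.Agent.H72.MP.Two
import Pool.Agent.H7.MPN.DerI

/-!
Negative half of MP_657af9_ag: classes in the cohomology of complexes of sheaves.
-/

open CategoryTheory Limits Opposite

universe u

namespace Pool.Agent.H72.MP

noncomputable section

variable {C : Type u} [SmallCategory C] {J : GrothendieckTopology C} {R : Sheaf J RingCat.{u}}

/-- The class in cohomology defined by a morphism to the cocycles. -/
def cls (L : CochainComplex (SheafOfModules.{u} R) ℤ) {M : SheafOfModules.{u} R}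
    (w : M ⟶ L.X 0) (hw : w ≫ L.d 0 1 = 0) : M ⟶ L.homology 0 :=
  L.liftCycles w 1 (by simp) hw ≫ L.homologyπ 0

lemma cls_comp (L : CochainComplex (SheafOfModules.{u} R) ℤ) {M N : SheafOfModules.{u} R}
    (a : N ⟶ M) (w : M ⟶ L.X 0) (hw : w ≫ L.d 0 1 = 0) :
    a ≫ cls L w hw = cls L (a ≫ w) (by rw [Category.assoc, hw, comp_zero]) := by
  unfold cls
  rw [← Category.assoc, HomologicalComplex.comp_liftCycles]

lemma cls_d (L : CochainComplex (SheafOfModules.{u} R) ℤ) {M : SheafOfModules.{u} R}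
    (w : M ⟶ L.X (-1)) : cls L (w ≫ L.d (-1) 0) (by simp) = 0 := by
  unfold cls
  have h : L.liftCycles (w ≫ L.d (-1) 0) 1 (by simp) (by simp) = w ≫ L.toCycles (-1) 0 := by
    rw [← cancel_mono (L.iCycles 0)]
    simp
  rw [h, Category.assoc, HomologicalComplex.toCycles_comp_homologyπ, comp_zero]

lemma toCycles_exact (L : CochainComplex (SheafOfModules.{u} R) ℤ) :
    (ShortComplex.mk (L.toCycles (-1) 0) (L.homologyπ 0)
      (L.toCycles_comp_homologyπ (-1) 0)).Exact :=
  ShortComplex.exact_of_g_is_cokernel _ (L.homologyIsCokernel (-1) 0 (by simp))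

lemma cls_local (L : CochainComplex (SheafOfModules.{u} R) ℤ) {M : SheafOfModules.{u} R}
    (w : M ⟶ L.X 0) (hw : w ≫ L.d 0 1 = 0) (W : C) (v : M.val.obj (op W))
    (hv : (cls L w hw).val.app (op W) v = 0) :
    ∃ S ∈ J W, ∀ (V : C) (g : V ⟶ W), S g → ∃ y : (L.X (-1)).val.obj (op V),
      (L.d (-1) 0).val.app (op V) y = (L.X 0).val.map g.op (w.val.app (op W) v) := by
  obtain ⟨S, hS, hS'⟩ := (exact_iff _).1 (toCycles_exact L) W
    ((L.liftCycles w 1 (by simp) hw).val.app (op W) v) hv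
  refine ⟨S, hS, fun V g hg => ?_⟩
  obtain ⟨y, hy⟩ := hS' V g hg
  refine ⟨y, ?_⟩
  have h1 : (L.d (-1) 0).val.app (op V) y =
      (L.iCycles 0).val.app (op V) ((L.toCycles (-1) 0).val.app (op V) y) := by
    have h2 : L.toCycles (-1) 0 ≫ L.iCycles 0 = L.d (-1) 0 := by simp
    rw [← h2]
    rfl
  have h3 : w.val.app (op W) v =
      (L.iCycles 0).val.app (op W) ((L.liftCycles w 1 (by simp) hw).val.app (op W) v) := by
    have h2 : L.liftCycles w 1 (by simp) hw ≫ L.iCycles 0 = w := by simp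
    exact (congrArg (fun q : M ⟶ L.X 0 => q.val.app (op W) v) h2).symm
  have h4 : (L.toCycles (-1) 0).val.app (op V) y =
    (L.cycles 0).val.map g.op ((L.liftCycles w 1 (by simp) hw).val.app (op W) v) := hy
  rw [h1, h3, h4]
  exact PresheafOfModules.naturality_apply (L.iCycles 0).val g.op _

lemma cls_map (K I : CochainComplex (SheafOfModules.{u} R) ℤ) (j : K ⟶ I)
    {M : SheafOfModules.{u} R} (w : M ⟶ K.X 0) (hw : w ≫ K.d 0 1 = 0) :
    cls K w hw ≫ HomologicalComplex.homologyMap j 0 =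
      cls I (w ≫ j.f 0) (by rw [Category.assoc, j.comm, reassoc_of% hw, zero_comp]) := by
  unfold cls
  rw [Category.assoc, HomologicalComplex.homologyπ_naturality, ← Category.assoc]
  congr 1
  rw [← cancel_mono (I.iCycles 0)]
  simp

/-- A cocycle which becomes a coboundary in a quasi-isomorphic complex is locally a
coboundary. -/
lemma local_of_quasiIso (K I : CochainComplex (SheafOfModules.{u} R) ℤ) (j : K ⟶ I)
    [QuasiIso j] (hK : K.d 0 1 = 0) (W : C) (v : (K.X 0).val.obj (op W))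
    (y : (I.X (-1)).val.obj (op W))
    (hy : (I.d (-1) 0).val.app (op W) y = (j.f 0).val.app (op W) v) :
    ∃ S ∈ J W, ∀ (V : C) (g : V ⟶ W), S g → ∃ x : (K.X (-1)).val.obj (op V),
      (K.d (-1) 0).val.app (op V) x = (K.X 0).val.map g.op v := by
  refine cls_local K (𝟙 _) (by rw [hK, comp_zero]) W v ?_
  have hq := QuasiIso.quasiIsoAt (f := j) 0
  have h1 : Mono (HomologicalComplex.homologyMap j 0) := inferInstance
  refine (mono_iff_injective _).1 h1 W ?_
  rw [map_zero]
  have h2 := cls_map K I j (𝟙 _) (by rw [hK, comp_zero])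
  refine (congrArg (fun q : K.X 0 ⟶ I.homology 0 => q.val.app (op W) v) h2).trans ?_
  have h3 : 𝟙 _ ≫ j.f 0 = j.f 0 := Category.id_comp _
  have h4 : (I.liftCycles (𝟙 (K.X 0) ≫ j.f 0) 1 (by simp)
      (by rw [Category.assoc, j.comm, reassoc_of% hK]; simp)).val.app (op W) v =
      (I.toCycles (-1) 0).val.app (op W) y := by
    have h5 : Mono (I.iCycles 0) := inferInstance
    refine (mono_iff_injective _).1 h5 W ?_
    have h6 : I.toCycles (-1) 0 ≫ I.iCycles 0 = I.d (-1) 0 := by simp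
    have h7 : I.liftCycles (𝟙 (K.X 0) ≫ j.f 0) 1 (by simp)
      (by rw [Category.assoc, j.comm, reassoc_of% hK]; simp) ≫ I.iCycles 0 = j.f 0 := by simp
    have h8 := congrArg (fun q : I.X (-1) ⟶ I.X 0 => q.val.app (op W) y) h6
    have h9 := congrArg (fun q : K.X 0 ⟶ I.X 0 => q.val.app (op W) v) h7
    exact h9.trans (hy.symm.trans h8.symm)
  have h10 : (cls I (𝟙 (K.X 0) ≫ j.f 0)
      (by rw [Category.assoc, j.comm, reassoc_of% hK]; simp)).val.app (op W) v =
      (I.homologyπ 0).val.app (op W) ((I.liftCycles (𝟙 (K.X 0) ≫ j.f 0) 1 (by simp)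
      (by rw [Category.assoc, j.comm, reassoc_of% hK]; simp)).val.app (op W) v) := rfl
  rw [h10, h4]
  have h11 : I.toCycles (-1) 0 ≫ I.homologyπ 0 = 0 := I.toCycles_comp_homologyπ (-1) 0
  exact congrArg (fun q : I.X (-1) ⟶ I.homology 0 => q.val.app (op W) y) h11

lemma local_of_two {A B : SheafOfModules.{u} R} (d : A ⟶ B)
    (I : CochainComplex (SheafOfModules.{u} R) ℤ) (j : two d ⟶ I) [QuasiIso j] :
    ∃ (jm : A ⟶ I.X (-1)) (j0 : B ⟶ I.X 0), jm ≫ I.d (-1) 0 = d ≫ j0 ∧ j0 ≫ I.d 0 1 = 0 ∧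
      ∀ (W : C) (v : B.val.obj (op W)) (y : (I.X (-1)).val.obj (op W)),
        (I.d (-1) 0).val.app (op W) y = j0.val.app (op W) v →
          ∃ S ∈ J W, ∀ (V : C) (g : V ⟶ W), S g → ∃ x : A.val.obj (op V),
            d.val.app (op V) x = B.val.map g.op v := by
  have h0 : (two d).d 0 1 = 0 := rfl
  have h1 : j.f (-1) ≫ I.d (-1) 0 = d ≫ j.f 0 := j.comm (-1) 0
  refine ⟨𝟙 A ≫ (j.f (-1) : (two d).X (-1) ⟶ I.X (-1)), j.f 0, ?_, ?_, fun W v y hy => ?_⟩
  · exact (Category.assoc _ _ _).trans ((Category.id_comp _).trans h1)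
  · refine (j.comm 0 1).trans ?_
    rw [h0]
    exact zero_comp
  · exact local_of_quasiIso (two d) I j h0 W v y hy

end

end Pool.Agent.H72.MP
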