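import Pool.Agent.H7.MPN.Wt
import Pool.Agent.H7.MPN.Gen
import Pool.Agent.H72.MP.Cex

/-!
Negative half of MP_657af9_ag: a class in the cohomology of the direct image.
-/

open CategoryTheory Limits AlgebraicGeometry TopologicalSpace Opposite Pretriangulated

namespace Pool.Agent.H72.MP

open Tw

attribute [local instance] secModule

noncomputable section

section cov

variable {P : MorphismProperty Scheme.{0}} {k : Type} [Field k] {G : Type} [Group G]
  [TopologicalSpace G] [IsTopologicalGroup G] {ρ : G →* (k ≃+* k)} {X Y : Scheme.{0}}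
  {ℓ : ℕ} [Fact ℓ.Prime]
  [P.IsStableUnderBaseChange] [P.IsStableUnderComposition] [P.HasOfPostcompProperty P]

/-- Coverings are surjective. -/
lemma exists_pt_of_cover {U : Tw P ρ X} (S : Sieve U) (hS : S ∈ Tw.topo P ρ X U) (x : U.T) :
    ∃ (V : Tw P ρ X) (g : V ⟶ U) (_ : S g) (v : V.T), g.f v = x := by
  obtain ⟨R, hR, hRS⟩ := mem_topo_iff.1 hS
  obtain ⟨ι, Z, g, rfl⟩ := R.exists_eq_ofArrows
  have hR' : (Presieve.ofArrows Z g).map (forget P ρ X) ∈
    Scheme.proetalePrecoverage U.T := hR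
  rw [Presieve.map_ofArrows] at hR'
  have hR2 := Scheme.propQCPrecoverage_le_precoverage _ hR'
  obtain ⟨T, f, hf, v, hv⟩ := (Presieve.mem_comap_jointlySurjectivePrecoverage_iff _).1 hR2.1 x
  obtain ⟨i⟩ := hf
  exact ⟨Z i, g i, hRS _ _ ⟨i⟩, v, hv⟩

/-- If the base change to `Y` of `U` is non-empty then so is that of an element of
a covering. -/
lemma exists_pull_nonempty (i : Y ⟶ X) {U : Tw P ρ X} (S : Sieve U)
    (hS : S ∈ Tw.topo P ρ X U) (x : ((pull i).obj U : Tw P ρ Y).T) :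
    ∃ (V : Tw P ρ X) (g : V ⟶ U) (_ : S g), Nonempty ((pull i).obj V : Tw P ρ Y).T := by
  obtain ⟨V, g, hg, v, hv⟩ := exists_pt_of_cover S hS (pullback.fst U.π i x)
  refine ⟨V, g, hg, ?_⟩
  have h1 : V.π v = i (pullback.snd U.π i x) := by
    have h2 : V.π v = U.π (g.f v) := by
      rw [← Scheme.Hom.comp_apply, g.w]
    rw [h2, hv, ← Scheme.Hom.comp_apply, ← Scheme.Hom.comp_apply, pullback.condition]
  obtain ⟨z, -, -⟩ := Scheme.Pullback.exists_preimage_pullback v (pullback.snd U.π i x) h1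
  exact ⟨z⟩

end cov

section main

variable {p ℓ : ℕ} [Fact p.Prime] [Fact ℓ.Prime] (κ : Kum p ℓ) {X Y : Scheme.{0}}

/-- The sections of `E`. -/
abbrev eSec (U : Tw @WeaklyEtale (ρη p) Y)
    (a b : (ringS @WeaklyEtale (ρη p) Y ℓ).obj.obj (op U)) : (EE κ Y).val.obj (op U) := (a, b)

lemma eSec_rst {U V : Tw @WeaklyEtale (ρη p) Y} (u : V ⟶ U)
    (a b : (ringS @WeaklyEtale (ρη p) Y ℓ).obj.obj (op U)) :
    rst (EE κ Y).val u (eSec κ U a b) = eSec κ V
      ((ringS @WeaklyEtale (ρη p) Y ℓ).obj.map u.op a -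
        tauF (kumC κ) u.c * (ringS @WeaklyEtale (ρη p) Y ℓ).obj.map u.op b)
      (chiF (cycInv p ℓ) (cycInv_continuous p ℓ) (u.c)⁻¹ *
        (ringS @WeaklyEtale (ρη p) Y ℓ).obj.map u.op b) := rfl

lemma dI_apply (i : Y ⟶ X) (U : Tw @WeaklyEtale (ρη p) X)
    (a : (ringS @WeaklyEtale (ρη p) X ℓ).obj.obj (op U)) :
    (dI κ i).val.app (op U) a = eSec κ ((pull i).obj U)
      ((φpull @WeaklyEtale (ρη p) ℓ i).hom.app (op U) a) 0 := rfl

lemma not_local (i : Y ⟶ X) (W : Tw @WeaklyEtale (ρη p) X)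
    (x : ((pull i).obj W : Tw @WeaklyEtale (ρη p) Y).T)
    (S : Sieve W) (hS : S ∈ Tw.topo @WeaklyEtale (ρη p) X W)
    (h : ∀ (V : Tw @WeaklyEtale (ρη p) X) (g : V ⟶ W), S g →
      ∃ a : (OE p ℓ X).val.obj (op V), (dI κ i).val.app (op V) a =
        ((pushη i).obj (EE κ Y)).val.map g.op (eSec κ ((pull i).obj W) 0 1)) : False := by
  obtain ⟨V, g, hg, ⟨t⟩⟩ := exists_pull_nonempty i S hS x
  obtain ⟨a, ha⟩ := h V g hg
  have h1 : eSec κ ((pull i).obj V) ((φpull @WeaklyEtale (ρη p) ℓ i).hom.app (op V) a) 0 =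
    rst (EE κ Y).val ((pull i).map g) (eSec κ ((pull i).obj W) 0 1) := ha
  rw [eSec_rst] at h1
  have h2 : (0 : (ringS @WeaklyEtale (ρη p) Y ℓ).obj.obj (op ((pull i).obj V))) =
    chiF (cycInv p ℓ) (cycInv_continuous p ℓ) (((pull i).map g).c)⁻¹ *
      (ringS @WeaklyEtale (ρη p) Y ℓ).obj.map ((pull i).map g).op 1 := congrArg Prod.snd h1
  rw [map_one, mul_one] at h2
  have h3 := chiF_mul_inv (cycInv p ℓ) (cycInv_continuous p ℓ) (ℓ := ℓ) (((pull i).map g).c)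
  rw [← h2, mul_zero] at h3
  have h4 := congrArg (fun q : (ringS @WeaklyEtale (ρη p) Y ℓ).obj.obj
    (op ((pull i).obj V)) => (show ULift.{1} C(_, ℚ_[ℓ]) from q).down t) h3
  exact zero_ne_one h4

lemma pt_w (i : Spec (.of (ZMod p)) ⟶ X) (f : X ⟶ Spec (.of (ZMod p))) (h : i ≫ f = 𝟙 _) :
    𝟙 _ ≫ ptY (ZMod p) (kb p) = (ptY (ZMod p) (kb p) ≫ i) ≫ f := by
  rw [Category.assoc, h, Category.id_comp, Category.comp_id]

/-- The geometric point over the given rational point. -/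
lemma exists_pt (i : Spec (.of (ZMod p)) ⟶ X) (f : X ⟶ Spec (.of (ZMod p))) (h : i ≫ f = 𝟙 _) :
    Nonempty ((pull i).obj ((pull f).obj (ptg p (ρη p))) :
      Tw @WeaklyEtale (ρη p) (Spec (.of (ZMod p)))).T := by
  let a : Spec (.of (kb p)) ⟶ pullback (ptY (ZMod p) (kb p)) f :=
    pullback.lift (𝟙 _) (ptY (ZMod p) (kb p) ≫ i) (pt_w i f h)
  let b : Spec (.of (kb p)) ⟶ pullback (pullback.snd (ptY (ZMod p) (kb p)) f) i :=
    pullback.lift a (ptY (ZMod p) (kb p)) (pullback.lift_snd _ _ _)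
  exact ⟨b (IsLocalRing.closedPoint (kb p) : PrimeSpectrum (kb p))⟩

lemma e2_rst (i : Spec (.of (ZMod p)) ⟶ X) (f : X ⟶ Spec (.of (ZMod p))) (g : Gη p) :
    rst (EE κ (Spec (.of (ZMod p)))).val ((pull i).map ((pull f).map (gE (ρη p) g)))
      (eSec κ ((pull i).obj ((pull f).obj (ptg p (ρη p)))) 0 1) =
    eSec κ ((pull i).obj ((pull f).obj (ptg p (ρη p)))) (- cst _ (κ.t g : ℚ_[ℓ]))
      (cst _ (((cycInv p ℓ g)⁻¹ : ℚ_[ℓ]ˣ) : ℚ_[ℓ])) := by
  rw [eSec_rst, map_zero, map_one, mul_one, mul_one, zero_sub]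
  have hc : ∀ t, ((pull i).map ((pull f).map (gE (ρη p) g))).c t = g := by
    intro t
    change g * 1 * 1 = g
    rw [mul_one, mul_one]
  refine Prod.ext ?_ ?_
  · change - tauF _ _ = - _
    congr 1
  · change chiF (cycInv p ℓ) (cycInv_continuous p ℓ) _ = _
    refine ULift.down_injective (ContinuousMap.ext fun t => ?_)
    change ((cycInv p ℓ (((pull i).map ((pull f).map (gE (ρη p) g))).c t)⁻¹ : ℚ_[ℓ]ˣ) : ℚ_[ℓ]) =
      (((cycInv p ℓ g)⁻¹ : ℚ_[ℓ]ˣ) : ℚ_[ℓ])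
    rw [hc, map_inv]

/-- The class of the second basis vector. -/
theorem class_exists (i : Spec (.of (ZMod p)) ⟶ X)
    (f : X ⟶ Spec (.of (ZMod p))) (h : i ≫ f = 𝟙 _) :
    ∃ v : ((DerivedCategory.homologyFunctor _ 0).obj (DerivedCategory.Plus.ι.obj
        ((pushη f).rightDerivedFunctorPlus.obj (FF κ i)))).val.obj (op (ptg p (ρη p))),
      v ≠ 0 ∧ ∀ g : Gη p, rstL _ (gE (ρη p) g) v = (((cycInv p ℓ g)⁻¹ : ℚ_[ℓ]ˣ) : ℚ_[ℓ]) • v := by
  obtain ⟨I, j, hj, ⟨e⟩⟩ := derived_homology (pushη f) (CP κ i) 0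
  have hj' : @QuasiIso _ _ _ _ _ (two (dI κ i)) I j _ _ := hj
  obtain ⟨jm, j0, hjm, hj0, hloc⟩ := local_of_two (dI κ i) I j
  have hw : (pushη f).map j0 ≫
      (((pushη f).mapHomologicalComplex (ComplexShape.up ℤ)).obj I).d 0 1 = 0 := by
    have h1 : (pushη f).map j0 ≫ (pushη f).map (I.d 0 1) = 0 := by
      rw [← Functor.map_comp, hj0, Functor.map_zero]
    exact h1
  let α := cls (((pushη f).mapHomologicalComplex (ComplexShape.up ℤ)).obj I)
    ((pushη f).map j0) hw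
  let e2 : ((pushη f).obj ((pushη i).obj (EE κ (Spec (.of (ZMod p)))))).val.obj
    (op (ptg p (ρη p))) := eSec κ ((pull i).obj ((pull f).obj (ptg p (ρη p)))) 0 1
  let e1 : ((pushη f).obj ((pushη i).obj (EE κ (Spec (.of (ZMod p)))))).val.obj
    (op (ptg p (ρη p))) := eSec κ ((pull i).obj ((pull f).obj (ptg p (ρη p)))) 1 0
  have hα1 : secL α (ptg p (ρη p)) e1 = 0 := by
    have h2 : (pushη f).map (dI κ i) ≫ (pushη f).map j0 =
      (pushη f).map jm ≫ (((pushη f).mapHomologicalComplex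
        (ComplexShape.up ℤ)).obj I).d (-1) 0 := by
      have h4 := congrArg (pushη f).map hjm
      rw [Functor.map_comp, Functor.map_comp] at h4
      exact h4.symm
    have h1 : (pushη f).map (dI κ i) ≫ α = 0 := by
      have h5 := cls_comp (((pushη f).mapHomologicalComplex (ComplexShape.up ℤ)).obj I)
        ((pushη f).map (dI κ i)) ((pushη f).map j0) hw
      refine h5.trans ?_
      have h6 := cls_d (((pushη f).mapHomologicalComplex (ComplexShape.up ℤ)).obj I)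
        ((pushη f).map jm)
      refine Eq.trans ?_ h6
      congr 1
    have h6 : secL ((pushη f).map (dI κ i)) (ptg p (ρη p))
        (1 : (ringS @WeaklyEtale (ρη p) X ℓ).obj.obj (op ((pull f).obj (ptg p (ρη p))))) = e1 := by
      refine (dI_apply κ i _ _).trans ?_
      rw [map_one]
      rfl
    rw [← h6]
    exact congrArg (fun q => secL q (ptg p (ρη p)) (1 : (ringS @WeaklyEtale (ρη p) X ℓ).obj.obj
      (op ((pull f).obj (ptg p (ρη p)))))) h1
  have hα2 : secL α (ptg p (ρη p)) e2 ≠ 0 := by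
    intro h0
    obtain ⟨S, hS, hS'⟩ := cls_local _ _ hw (ptg p (ρη p)) e2 h0
    obtain ⟨y, hy⟩ := hS' _ (𝟙 _) (point_sieve S hS)
    have hy' : (I.d (-1) 0).val.app (op ((pull f).obj (ptg p (ρη p)))) y =
      j0.val.app (op ((pull f).obj (ptg p (ρη p)))) e2 := by
      refine hy.trans ?_
      exact rst_id ((pushη f).obj (I.X 0)).val _ _
    obtain ⟨T, hT, hT'⟩ := hloc ((pull f).obj (ptg p (ρη p))) e2 y hy'
    refine not_local κ i ((pull f).obj (ptg p (ρη p))) ?_ T hT hT'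
    exact (exists_pt i f h).some
  refine ⟨secL e.inv (ptg p (ρη p)) (secL α (ptg p (ρη p)) e2), ?_, ?_⟩
  · intro h0
    exact hα2 ((mono_iff_injective e.inv).1 inferInstance _ (h0.trans (map_zero _).symm))
  · intro g
    have h1 : rstL _ (gE (ρη p) g) e2 = (((cycInv p ℓ g)⁻¹ : ℚ_[ℓ]ˣ) : ℚ_[ℓ]) • e2 -
      (κ.t g : ℚ_[ℓ]) • e1 := by
      refine (e2_rst κ i f g).trans ?_
      refine Prod.ext ?_ ?_
      · change - cst _ (κ.t g : ℚ_[ℓ]) = cst _ (((cycInv p ℓ g)⁻¹ : ℚ_[ℓ]ˣ) : ℚ_[ℓ]) * 0 -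
          cst _ (κ.t g : ℚ_[ℓ]) * 1
        rw [mul_zero, mul_one, zero_sub]
        rfl
      · change cst _ (((cycInv p ℓ g)⁻¹ : ℚ_[ℓ]ˣ) : ℚ_[ℓ]) =
          cst _ (((cycInv p ℓ g)⁻¹ : ℚ_[ℓ]ˣ) : ℚ_[ℓ]) * 1 - cst _ (κ.t g : ℚ_[ℓ]) * 0
        rw [mul_zero, mul_one, sub_zero]
        rfl
    have h2 := (secL_rst α (gE (ρη p) g) e2).symm
    rw [h1, map_sub, map_smul, map_smul, hα1, smul_zero, sub_zero] at h2
    have h3 := (secL_rst e.inv (gE (ρη p) g) (secL α (ptg p (ρη p)) e2)).symm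
    rw [h2, map_smul] at h3
    exact h3

end main

end

end Pool.Agent.H72.MP
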