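import Pool.Agent.H7.MPN.Mf
import Pool.Agent.H72.MP.Mod.A2
import Pool.Agent.H72.MP.Mod.A3
import Pool.Agent.H72.MP.Mod.A4

/-!
Negative half of MP_657af9_ag: the logarithm of the monodromy at the point.
-/

open CategoryTheory Limits AlgebraicGeometry TopologicalSpace Opposite Pretriangulated

namespace Pool.Agent.H72.MP

open Tw

attribute [local instance] secModule

set_option linter.unusedSectionVars false

noncomputable section

variable {p ℓ : ℕ} [Fact p.Prime] [Fact ℓ.Prime]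

lemma nilp_aux {V : Type*} [AddCommGroup V] [Module ℚ_[ℓ] V] (M : Module.End ℚ_[ℓ] V)
    (c : ℕ → ℚ_[ℓ]) (h0 : c 0 = 1) (h1 : c 1 ≠ 0) (n : ℕ) (hM : M ^ n = 0) (x : V)
    (hx : (∑ j ∈ Finset.range n, c j • M ^ j) x = x) : M x = 0 := by
  match n, hM, hx with
  | 0, hM, hx =>
    rw [← hx]
    simp
  | 1, hM, hx =>
    rw [pow_one] at hM
    rw [hM]
    rfl
  | n + 2, hM, hx =>
    have key : ∀ m : ℕ, (M ^ (m + 1)) x = 0 → M x = 0 := by
      intro m
      induction m with
      | zero => intro h; simpa using h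
      | succ m ih =>
        intro h
        refine ih ?_
        have h2 := congrArg (M ^ m) hx
        rw [Finset.sum_range_succ', Finset.sum_range_succ'] at h2
        simp only [LinearMap.add_apply, LinearMap.sum_apply, map_add, map_sum,
          LinearMap.smul_apply, map_smul, ← Module.End.mul_apply, ← pow_add] at h2
        rw [Finset.sum_eq_zero, h0] at h2
        · simpa [h1] using h2
        · intro j _
          have h3 : m + (j + 1 + 1) = j + (m + 1 + 1) := by ring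
          rw [h3, pow_add, Module.End.mul_apply, h, map_zero, smul_zero]
    exact key (n + 1) (by rw [hM]; rfl)

section geo

/-- The map on the cohomology at the geometric point. -/
def wE {K L : Db p ℓ (YY p)} (f : K ⟶ L) :
    ((DerivedCategory.homologyFunctor _ 0).obj K).val.obj (op (ptg p (ρb p))) →ₗ[ℚ_[ℓ]]
      ((DerivedCategory.homologyFunctor _ 0).obj L).val.obj (op (ptg p (ρb p))) :=
  secL ((DerivedCategory.homologyFunctor _ 0).map f) (ptg p (ρb p))

lemma wE_comp {K L M : Db p ℓ (YY p)} (f : K ⟶ L) (g : L ⟶ M)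
    (x : ((DerivedCategory.homologyFunctor _ 0).obj K).val.obj (op (ptg p (ρb p)))) :
    wE (f ≫ g) x = wE g (wE f x) := by
  unfold wE
  rw [Functor.map_comp]
  rfl

lemma wE_add {K L : Db p ℓ (YY p)} (f g : K ⟶ L) : wE (f + g) = wE f + wE g := by
  unfold wE
  rw [Functor.map_add]
  rfl

lemma wE_zero {K L : Db p ℓ (YY p)} : wE (0 : K ⟶ L) = 0 := by
  unfold wE
  rw [Functor.map_zero]
  rfl

lemma wE_smul {K L : Db p ℓ (YY p)} (a : ℚ_[ℓ]) (f : K ⟶ L) : wE (a • f) = a • wE f := by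
  unfold wE
  rw [Functor.map_smul]
  refine LinearMap.ext fun x => ?_
  exact ((((DerivedCategory.homologyFunctor _ 0).map f).val.app
    (op (ptg p (ρb p)))).hom.map_smul (cst _ a) x)

lemma wE_id (K : Db p ℓ (YY p)) : wE (𝟙 K) = LinearMap.id := by
  unfold wE
  rw [CategoryTheory.Functor.map_id]
  rfl

lemma wE_pow {K : Db p ℓ (YY p)} (f : End K) (n : ℕ) :
    wE (show K ⟶ K from f ^ n) = (show Module.End ℚ_[ℓ] _ from wE f) ^ n := by
  induction n with
  | zero => exact wE_id K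
  | succ n ih =>
    have h : (f ^ (n + 1) : End K) = f * f ^ n := pow_succ' _ _
    rw [h, pow_succ', ← ih]
    exact LinearMap.ext fun x => wE_comp _ _ _

lemma wE_sum {K L : Db p ℓ (YY p)} {ι : Type*} (s : Finset ι) (f : ι → (K ⟶ L)) :
    wE (∑ i ∈ s, f i) = ∑ i ∈ s, wE (f i) := by
  classical
  induction s using Finset.induction_on with
  | empty => simp [wE_zero]
  | insert a s ha ih => rw [Finset.sum_insert ha, Finset.sum_insert ha, wE_add, ih]

/-- The comparison of the cohomology at the geometric point. -/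
def gh (K : Dη p ℓ (YY p)) :
    ((DerivedCategory.homologyFunctor _ 0).obj ((geo p ℓ (YY p)).obj K)).val.obj
      (op (ptg p (ρb p))) →ₗ[ℚ_[ℓ]] V0 K :=
  secL ((dHom (geoM p ℓ (YY p)) 0).hom.app K) (ptg p (ρb p))

lemma gh_inj (K : Dη p ℓ (YY p)) : Function.Injective (gh K) := by
  have h : Mono ((dHom (geoM p ℓ (YY p)) 0).app K).hom := inferInstance
  exact (mono_iff_injective _).1 h (ptg p (ρb p))

lemma gh_surj (K : Dη p ℓ (YY p)) (x : V0 K) : ∃ y, gh K y = x := by
  refine ⟨secL ((dHom (geoM p ℓ (YY p)) 0).inv.app K) (ptg p (ρb p)) x, ?_⟩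
  have h : secL ((dHom (geoM p ℓ (YY p)) 0).hom.app K) (ptg p (ρb p))
    (secL ((dHom (geoM p ℓ (YY p)) 0).inv.app K) (ptg p (ρb p)) x) =
    secL ((dHom (geoM p ℓ (YY p)) 0).inv.app K ≫ (dHom (geoM p ℓ (YY p)) 0).hom.app K)
      (ptg p (ρb p)) x := rfl
  refine h.trans ?_
  rw [Iso.inv_hom_id_app]
  rfl

lemma gh_nat {K L : Dη p ℓ (YY p)} (f : K ⟶ L)
    (y : ((DerivedCategory.homologyFunctor _ 0).obj ((geo p ℓ (YY p)).obj K)).val.obj
      (op (ptg p (ρb p)))) :
    gh L (wE ((geo p ℓ (YY p)).map f) y) = v0 f (gh K y) := by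
  have h := (dHom (geoM p ℓ (YY p)) 0).hom.naturality f
  exact congrArg (fun q => secL q (ptg p (ρb p)) y) h

lemma gE_inertia (g : Gη p) (hg : ρη p g = 1) :
    (gTrans (P := @WeaklyEtale) (X := YY p) (ρH := ρb p) (1 : Unit →* Gη p) continuous_const
      (fun _ => map_one (ρη p)) g⁻¹ (by rw [map_inv, hg, inv_one]) (fun _ => by simp)).app
        (ptg p (ρb p)) = gE (ρη p) g⁻¹ := by
  refine hom_ext ?_ (fun t => rfl)
  change 𝟙 _ = Spec.map (CommRingCat.ofHom ((ρη p g⁻¹)⁻¹ : kb p ≃+* kb p).toRingHom)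
  rw [map_inv, hg, inv_one, inv_one]
  exact (Spec.map_id _).symm

lemma gh_inertia (K : Dη p ℓ (YY p)) (g : Gη p) (hg : ρη p g = 1)
    (y : ((DerivedCategory.homologyFunctor _ 0).obj ((geo p ℓ (YY p)).obj K)).val.obj
      (op (ptg p (ρb p)))) :
    gh K (wE ((inertia p ℓ (YY p) g hg).app K) y) = gA K g⁻¹ (gh K y) := by
  have h := dHom_nat (gNat @WeaklyEtale (YY p) ℓ (ρH := ρb p) (1 : Unit →* Gη p) continuous_const
    (fun _ => map_one (ρη p)) g⁻¹ (by rw [map_inv, hg, inv_one]) (fun _ => by simp)) 0 K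
  refine (congrArg (fun q => secL q (ptg p (ρb p)) y) h).trans ?_
  rw [gA, ← gE_inertia g hg]
  rfl

end geo

/-- A vector fixed by the inertia group is killed by the logarithm of the monodromy. -/
theorem log_kills (hℓ : ℓ ≠ p) (κ : Kum p ℓ) {K : Dη p ℓ (YY p)}
    {N : K ⟶ (tate p ℓ (YY p)).obj K}
    (hN : IsLogMonodromy κ N) (x : V0 K) (hx : ∀ g, ρη p g = 1 → gA K g x = x) :
    v0 N x = 0 := by
  obtain ⟨n, hn, U, hU, h⟩ := hN
  obtain ⟨y, rfl⟩ := gh_surj K x
  obtain ⟨g₀, hg₀, ht₀⟩ := Kum.exists_inertia hℓ κ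
  obtain ⟨m, hm, hmU⟩ := exists_pow_mem U hU g₀
  have hg : ρη p (g₀ ^ m) = 1 := by rw [map_pow, hg₀, one_pow]
  have ht : κ.t (g₀ ^ m) = m * κ.t g₀ := by
    clear hm hmU hg
    induction m with
    | zero =>
      have h1 := κ.cocycle 1 1
      rw [mul_one, map_one, Units.val_one, one_mul] at h1
      rw [pow_zero, Nat.cast_zero, zero_mul]
      exact left_eq_add.1 h1
    | succ m ih =>
      rw [pow_succ, κ.cocycle, ih, map_pow, cyc_inertia p ℓ hℓ g₀ hg₀]
      push_cast
      simp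
      ring
  have ht' : ((κ.t (g₀ ^ m) : ℤ_[ℓ]) : ℚ_[ℓ]) ≠ 0 := by
    rw [ht]
    have h1 : (κ.t g₀ : ℚ_[ℓ]) ≠ 0 := by
      intro h2
      exact ht₀ (Subtype.ext h2)
    push_cast
    exact mul_ne_zero (by exact_mod_cast hm.ne') h1
  have hy : wE ((inertia p ℓ (YY p) (g₀ ^ m) hg).app K) y = y := by
    refine gh_inj K ?_
    rw [gh_inertia]
    exact hx _ (by rw [map_inv, hg, inv_one])
  have h1 : wE (show (geo p ℓ (YY p)).obj K ⟶ (geo p ℓ (YY p)).obj K from logOp N) y = 0 := by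
    refine nilp_aux (show Module.End ℚ_[ℓ] _ from
      wE (show (geo p ℓ (YY p)).obj K ⟶ (geo p ℓ (YY p)).obj K from logOp N))
      (fun j => (((κ.t (g₀ ^ m) : ℤ_[ℓ]) : ℚ_[ℓ]) ^ j * (j.factorial : ℚ_[ℓ])⁻¹))
      (by simp) (by simpa using ht') n ?_ y ?_
    · rw [← wE_pow, hn]
      exact wE_zero
    · have h2 := congrArg (fun q => wE q y) (h _ hmU hg)
      rw [hy] at h2
      refine Eq.trans ?_ h2.symm
      rw [wE_sum]
      simp only [LinearMap.sum_apply]
      refine Finset.sum_congr rfl fun j _ => ?_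
      rw [wE_smul, ← wE_pow]
  have h3 : wE ((kap p ℓ (YY p)).hom.app K) (wE ((geo p ℓ (YY p)).map N) y) = 0 := by
    rw [← wE_comp]
    exact h1
  have h4 : wE ((geo p ℓ (YY p)).map N) y = 0 := by
    have h5 : Mono ((DerivedCategory.homologyFunctor _ 0).map ((kap p ℓ (YY p)).hom.app K)) :=
      inferInstance
    exact (mono_iff_injective _).1 h5 (ptg p (ρb p)) (h3.trans (map_zero _).symm)
  rw [← gh_nat, h4, map_zero]

end

end Pool.Agent.H72.MP
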