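import Pool.Agent.H7.MPN.Wt

/-!
Negative half of MP_657af9_ag: the monodromy filtration at the point.
-/

open CategoryTheory Limits AlgebraicGeometry TopologicalSpace Opposite Pretriangulated

namespace Pool.Agent.H72.MP

open Tw

attribute [local instance] secModule

set_option linter.unusedSectionVars false

noncomputable section

variable {p ℓ : ℕ} [Fact p.Prime] [Fact ℓ.Prime]

/-- The spectrum of the prime field. -/
abbrev YY (p : ℕ) : Scheme.{0} := Spec (.of (ZMod p))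

/-- The cohomology sheaf in degree zero. -/
abbrev H0 (K : Dη p ℓ (YY p)) : Shη p ℓ (YY p) := (DerivedCategory.homologyFunctor _ 0).obj K

/-- The map on cohomology in degree zero. -/
abbrev H0m {K L : Dη p ℓ (YY p)} (f : K ⟶ L) : H0 K ⟶ H0 L :=
  (DerivedCategory.homologyFunctor _ 0).map f

/-- The cohomology in degree zero, at the geometric point. -/
abbrev V0 (K : Dη p ℓ (YY p)) : Type 1 := (H0 K).val.obj (op (ptg p (ρη p)))

/-- The map on cohomology in degree zero, at the geometric point. -/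
def v0 {K L : Dη p ℓ (YY p)} (f : K ⟶ L) : V0 K →ₗ[ℚ_[ℓ]] V0 L := secL (H0m f) _

lemma v0_comp {K L M : Dη p ℓ (YY p)} (f : K ⟶ L) (g : L ⟶ M) (x : V0 K) :
    v0 (f ≫ g) x = v0 g (v0 f x) := by
  have h : H0m (f ≫ g) = H0m f ≫ H0m g := Functor.map_comp _ _ _
  change secL (H0m (f ≫ g)) _ x = _
  rw [h]
  rfl

lemma v0_inj {K L : Dη p ℓ (YY p)} (f : K ⟶ L) [Mono (H0m f)] {x y : V0 K}
    (h : v0 f x = v0 f y) : x = y :=
  (mono_iff_injective (H0m f)).1 inferInstance _ h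

/-- The action of the group. -/
abbrev gA (K : Dη p ℓ (YY p)) (g : Gη p) : V0 K →ₗ[ℚ_[ℓ]] V0 K := rstL (H0 K) (gE (ρη p) g)

lemma v0_gA {K L : Dη p ℓ (YY p)} (f : K ⟶ L) (g : Gη p) (x : V0 K) :
    v0 f (gA K g x) = gA L g (v0 f x) := secL_rst _ _ _

lemma tate_mono {K L : Dη p ℓ (YY p)} (f : K ⟶ L) [Mono (H0m f)] :
    Mono (H0m ((tate p ℓ (YY p)).map f)) := by
  have h := (dHom (tateM p ℓ (YY p)) 0).hom.naturality f
  have h1 : Mono ((tateM p ℓ (YY p)).map (H0m f)) := inferInstance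
  have h2 : H0m ((tate p ℓ (YY p)).map f) ≫ (dHom (tateM p ℓ (YY p)) 0).hom.app L =
    (dHom (tateM p ℓ (YY p)) 0).hom.app K ≫ (tateM p ℓ (YY p)).map (H0m f) := h
  have h3 : Mono (H0m ((tate p ℓ (YY p)).map f) ≫ (dHom (tateM p ℓ (YY p)) 0).hom.app L) := by
    rw [h2]
    have h4 : Mono (((dHom (tateM p ℓ (YY p)) 0).app K).hom) := inferInstance
    exact @mono_comp _ _ _ _ _ _ h4 _ h1
  exact mono_of_mono _ ((dHom (tateM p ℓ (YY p)) 0).hom.app L)

section fil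

variable {K : Dη p ℓ (YY p)} {N : K ⟶ (tate p ℓ (YY p)).obj K} (F : MonFil K N)

lemma MonFil.s_mono (k : ℤ) : Mono (H0m (F.s k)) := by
  refine (DerivedCategory.HomologySequence.mono_homologyMap_mor₁_iff _ (F.dist k) (-1) 0).2 ?_
  exact (PGE_zero (F.perv_gr (k + 1)).2 (by norm_num)).eq_of_src _ _

lemma MonFil.inc_mono (k : ℤ) : Mono (H0m (F.inc k)) := by
  obtain ⟨b, hb⟩ := F.high
  have key : ∀ (n : ℕ) (k : ℤ), b ≤ k + n → Mono (H0m (F.inc k)) := by
    intro n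
    induction n with
    | zero =>
      intro k hk
      have := hb k (by simpa using hk)
      infer_instance
    | succ n ih =>
      intro k hk
      have h1 := ih (k + 1) (by push_cast at hk; linarith)
      have h2 := F.s_mono k
      have h3 : H0m (F.inc k) = H0m (F.s k) ≫ H0m (F.inc (k + 1)) := by
        rw [← F.s_inc k]
        exact Functor.map_comp _ _ _
      rw [h3]
      exact mono_comp _ _
  exact key (b - k).toNat k (by have := Int.self_le_toNat (b - k); linarith)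

/-- `x` comes from the step `k` of the filtration. -/
def MonFil.Mem (k : ℤ) (x : V0 K) : Prop := ∃ y : V0 (F.M k), v0 (F.inc k) y = x

lemma MonFil.step (m : ℤ) (y : V0 (F.M m)) (hy : v0 (F.q m) y = 0) :
    F.Mem (m - 1) (v0 (F.inc m) y) := by
  obtain ⟨k, rfl⟩ : ∃ k, m = k + 1 := ⟨m - 1, by ring⟩
  rw [add_sub_cancel_right]
  obtain ⟨z, hz⟩ := sp_exact _ _ _ (DerivedCategory.HomologySequence.exact₂ _ (F.dist k) 0) y hy
  refine ⟨z, ?_⟩
  rw [← F.s_inc k, v0_comp]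
  exact congrArg _ hz

lemma MonFil.exists_min (x : V0 K) (hx : x ≠ 0) : ∃ k, F.Mem (k + 2) x ∧ ¬ F.Mem (k + 2 - 1) x := by
  obtain ⟨b, hb⟩ := F.high
  obtain ⟨a, ha⟩ := F.low
  have h1 : ∃ k, F.Mem k x := by
    have := hb b le_rfl
    refine ⟨b, v0 (inv (F.inc b)) x, ?_⟩
    rw [← v0_comp, IsIso.inv_hom_id]
    change secL (H0m (𝟙 K)) _ x = x
    have h : H0m (𝟙 K) = 𝟙 _ := CategoryTheory.Functor.map_id _ _
    rw [h]
    rfl
  have h2 : ∀ k, F.Mem k x → a ≤ k := by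
    rintro k ⟨y, rfl⟩
    by_contra hk
    refine hx ?_
    have h3 : y = 0 := sp_zero _ _ ((DerivedCategory.homologyFunctor _ 0).map_isZero
      (ha k (by linarith))) y
    rw [h3, map_zero]
  obtain ⟨m, hm, hm'⟩ := Int.exists_least_of_bdd ⟨a, h2⟩ h1
  obtain ⟨k, rfl⟩ : ∃ k, m = k + 2 := ⟨m - 2, by ring⟩
  refine ⟨k, hm, fun h => ?_⟩
  have := hm' _ h
  linarith

lemma up_eq (m : ℤ) (j : ℕ) : up m j = m + 2 * j := by
  induction j with
  | zero => simp [up]
  | succ j ih => simp only [up, ih]; push_cast; ring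

lemma MonFil.ν_mono (k : ℤ) (hk : -1 ≤ k) : Mono (H0m (F.ν k)) := by
  obtain ⟨j, rfl⟩ : ∃ j : ℕ, k = up (-((j + 1 : ℕ) : ℤ)) j := by
    refine ⟨(k + 1).toNat, ?_⟩
    rw [up_eq]
    have : ((k + 1).toNat : ℤ) = k + 1 := Int.toNat_of_nonneg (by linarith)
    push_cast
    rw [this]
    ring
  have h1 : IsIso (F.ν (up (-((j + 1 : ℕ) : ℤ)) j) ≫ (tate p ℓ (YY p)).map
    (iter F.gr F.ν (-((j + 1 : ℕ) : ℤ)) j)) := F.iso (j + 1)
  have h2 : Mono (H0m (F.ν (up (-((j + 1 : ℕ) : ℤ)) j)) ≫ H0m ((tate p ℓ (YY p)).map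
    (iter F.gr F.ν (-((j + 1 : ℕ) : ℤ)) j))) := by
    rw [← Functor.map_comp]
    infer_instance
  exact mono_of_mono _ (H0m ((tate p ℓ (YY p)).map
    (iter F.gr F.ν (-((j + 1 : ℕ) : ℤ)) j)))

end fil

/-- The eigenvalue `p` is not allowed by weights at most one. -/
lemma not_good {a : ℤ} (ha : a ≤ 1) {V : Type*} [AddCommGroup V] [Module ℚ_[ℓ] V]
    {A : Module.End ℚ_[ℓ] V} (hA : Good ℓ p a A) (z : V) (hz : z ≠ 0)
    (hAz : A z = (p : ℚ_[ℓ]) • z) : False := by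
  obtain ⟨Q, h0, h1, h2⟩ := hA
  have h3 : Polynomial.aeval A Q z = (Polynomial.aeval (p : ℚ_[ℓ]) Q) • z := by
    clear h0 h1 h2
    induction Q using Polynomial.induction_on with
    | C a => simp [Module.algebraMap_end_apply]
    | add P Q hP hQ => simp only [map_add, LinearMap.add_apply, hP, hQ, add_smul]
    | monomial n a ih =>
      rw [pow_succ', ← mul_assoc, mul_comm (Polynomial.C a), mul_assoc,
        map_mul (Polynomial.aeval A) Polynomial.X _, map_mul (Polynomial.aeval (p : ℚ_[ℓ]))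
          Polynomial.X _, Polynomial.aeval_X, Polynomial.aeval_X,
        Module.End.mul_apply, ih, map_smul, hAz, smul_smul, mul_comm]
  rw [h2, LinearMap.zero_apply] at h3
  have h4 : Polynomial.aeval (p : ℚ_[ℓ]) Q = 0 := (smul_eq_zero.1 h3.symm).resolve_right hz
  have h5 : Polynomial.aeval (p : AlgebraicClosure ℚ_[ℓ]) Q = 0 := by
    have h6 := Polynomial.aeval_algebraMap_apply (AlgebraicClosure ℚ_[ℓ]) (p : ℚ_[ℓ]) Q
    rw [h4, map_zero, map_natCast] at h6
    exact h6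
  obtain ⟨v, hv, -, hw⟩ := h1 _ h5
  have h7 := hw p (by
    have h8 : (p : AlgebraicClosure ℚ_[ℓ]) = algebraMap ℚ _ (p : ℚ) := by simp
    rw [h8, minpoly.eq_X_sub_C (AlgebraicClosure ℚ_[ℓ]) (p : ℚ)]
    simp)
  have hp1 : (1 : ℝ) < p := by exact_mod_cast (Fact.out : p.Prime).one_lt
  have h9 : ((p : ℝ)) ^ (2 : ℤ) = (p : ℝ) ^ v := by
    rw [← h7]
    simp
  have h10 := zpow_right_injective₀ (by linarith) hp1.ne' h9
  linarith

/-- The comparison of the cohomology of the pull-back along a section. -/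
def sE (s : Sec p) (K : Dη p ℓ (YY p)) :
    (DerivedCategory.homologyFunctor _ 0).obj ((sigD ℓ (YY p) s).obj K) ≅
      (sigM ℓ (YY p) s).obj (H0 K) :=
  (dHom (sigM ℓ (YY p) s) 0).app K

lemma res_gE (s : Sec p) (φ : Gs p) :
    (res (P := @WeaklyEtale) (X := YY p) s.σ s.cont s.sec).map (gE (ρs p) φ) =
      gE (ρη p) (s.σ φ) := by
  refine hom_ext ?_ (fun t => rfl)
  change Spec.map (CommRingCat.ofHom ((ρs p φ)⁻¹ : kb p ≃+* kb p).toRingHom) =
    Spec.map (CommRingCat.ofHom ((ρη p (s.σ φ))⁻¹ : kb p ≃+* kb p).toRingHom)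
  rw [s.sec]

lemma IsPure.good {a : ℤ} {K : Dη p ℓ (YY p)} (hK : IsPure a K) (s : Sec p) {φ : Gs p}
    (hφ : IsFrob p φ) : Good ℓ p a (show Module.End ℚ_[ℓ] _ from gA K (s.σ φ)) := by
  have h1 := (hK s).1.good hφ 0
  rw [add_zero] at h1
  have h2 := Good.of_iso (sE s K).symm h1
  have h3 : rstL (H0 K) (gE (ρη p) (s.σ φ)) = rstL (H0 K)
    ((res (P := @WeaklyEtale) (X := YY p) s.σ s.cont s.sec).map (gE (ρs p) φ)) := by
      rw [res_gE]
      rfl
  rw [gA, h3]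
  exact h2

/-- An element killed by `N` with Frobenius eigenvalue `p` contradicts monodromy-purity of
weight one. -/
theorem MonFil.contra {K : Dη p ℓ (YY p)} {N : K ⟶ (tate p ℓ (YY p)).obj K} (F : MonFil K N)
    (hw : ∀ k, IsPure (k + 1) (F.gr k)) (s : Sec p) {φ : Gs p} (hφ : IsFrob p φ) (x : V0 K)
    (hx : x ≠ 0) (hN : v0 N x = 0) (hA : gA K (s.σ φ) x = (p : ℚ_[ℓ]) • x) : False := by
  obtain ⟨k, ⟨y, hy⟩, hk⟩ := F.exists_min x hx
  have hinc := F.inc_mono (k + 2)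
  have hz : v0 (F.q (k + 2)) y ≠ 0 := by
    intro h
    refine hk ?_
    rw [← hy]
    exact F.step (k + 2) y h
  have hNk : v0 (F.Nk k) y = 0 := by
    have h1 := F.inc_mono k
    have h2 := tate_mono (F.inc k)
    refine v0_inj ((tate p ℓ (YY p)).map (F.inc k)) ?_
    rw [← v0_comp, F.Nk_inc, v0_comp, hy, hN, map_zero]
  have hν : v0 (F.ν k) (v0 (F.q (k + 2)) y) = 0 := by
    rw [← v0_comp, F.q_ν, v0_comp, hNk, map_zero]
  have hk1 : k < -1 := by
    by_contra h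
    have h1 := F.ν_mono k (not_lt.1 h)
    refine hz (v0_inj (F.ν k) ?_)
    rw [hν, map_zero]
  have hAy : gA _ (s.σ φ) y = (p : ℚ_[ℓ]) • y := by
    refine v0_inj (F.inc (k + 2)) ?_
    rw [v0_gA, map_smul, hy, hA]
  refine not_good (p := p) (a := k + 2 + 1) (by linarith) ((hw (k + 2)).good s hφ) _ hz ?_
  change gA _ (s.σ φ) (v0 (F.q (k + 2)) y) = _
  rw [← v0_gA, hAy, map_smul]

end

end Pool.Agent.H72.MP
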