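import Pool.Agent.H7.MPN.Lg
import Pool.Agent.H7.MPN.Cls

/-!
Negative half of MP_657af9_ag: the direct image is not monodromy-pure of weight one.
-/

open CategoryTheory Limits AlgebraicGeometry TopologicalSpace Opposite Pretriangulated

namespace Pool.Agent.H72.MP

open Tw

attribute [local instance] secModule

noncomputable section

variable {p ℓ : ℕ} [Fact p.Prime] [Fact ℓ.Prime]

lemma cycInv_inertia (hℓ : ℓ ≠ p) (g : Gη p) (hg : ρη p g = 1) :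
    (((cycInv p ℓ g)⁻¹ : ℚ_[ℓ]ˣ) : ℚ_[ℓ]) = 1 := by
  have h1 := cyc_inertia p ℓ hℓ g hg
  have h2 : cycInv p ℓ g = Units.map (algebraMap ℤ_[ℓ] ℚ_[ℓ]).toMonoidHom ((cyc p ℓ g)⁻¹) := rfl
  rw [h2, h1, inv_one, map_one, inv_one, Units.val_one]

lemma cycInv_frob (hℓ : ℓ ≠ p) (g : Gη p) (φ : Gs p) (hφ : IsFrob p φ)
    (hg : ρη p g = ρs p φ) : (((cycInv p ℓ g)⁻¹ : ℚ_[ℓ]ˣ) : ℚ_[ℓ]) = p := by
  have h1 := cyc_frob p ℓ hℓ g φ hφ hg
  have h2 : cycInv p ℓ g = Units.map (algebraMap ℤ_[ℓ] ℚ_[ℓ]).toMonoidHom ((cyc p ℓ g)⁻¹) := rfl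
  rw [h2, ← map_inv, inv_inv]
  change algebraMap ℤ_[ℓ] ℚ_[ℓ] ((cyc p ℓ g : ℤ_[ℓ]ˣ) : ℤ_[ℓ]) = p
  rw [h1, map_natCast]

/-- The direct image of the complex `F` under the structure morphism is not monodromy-pure of
weight one. -/
theorem neg (hℓ : ℓ ≠ p) (κ : Kum p ℓ) {X : Scheme.{0}} (i : Spec (.of (ZMod p)) ⟶ X)
    (f : X ⟶ Spec (.of (ZMod p))) (h : i ≫ f = 𝟙 _) :
    ¬ IsMonodromyPure κ 1 (DerivedCategory.Plus.ι.obj
      ((pushη f).rightDerivedFunctorPlus.obj (FF κ i))) := by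
  rintro ⟨-, hM⟩
  obtain ⟨Q, hQ, -, -, N, hN, F, hF⟩ := hM 0
  obtain ⟨v, hv, hg⟩ := class_exists κ i f h
  obtain ⟨e⟩ := hQ.homologyIso
  obtain ⟨s⟩ := exists_sec p
  obtain ⟨φ, hφ⟩ := exists_frob p
  have hx0 : (secL e.inv (ptg p (ρη p)) v : V0 Q) ≠ 0 := by
    intro h0
    exact hv ((mono_iff_injective e.inv).1 inferInstance _ (h0.trans (map_zero _).symm))
  have hgA : ∀ g, gA Q g (secL e.inv (ptg p (ρη p)) v) =
      (((cycInv p ℓ g)⁻¹ : ℚ_[ℓ]ˣ) : ℚ_[ℓ]) • (secL e.inv (ptg p (ρη p)) v : V0 Q) := by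
    intro g
    have h1 := congrArg (secL e.inv (ptg p (ρη p))) (hg g)
    rw [map_smul, secL_rst] at h1
    exact h1
  refine F.contra (fun k => by simpa using hF k) s hφ _ hx0 (log_kills hℓ κ hN _ ?_) ?_
  · intro g hg1
    rw [hgA, cycInv_inertia hℓ g hg1, one_smul]
  · rw [hgA, cycInv_frob hℓ _ φ hφ (s.sec φ)]

end

end Pool.Agent.H72.MP
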