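import Pool.Agent.H72.MP.Defs
import Pool.Agent.H72.MP.Mod.W1
import Pool.Agent.H72.MP.Mod.A1

/-!
Negative half of MP_657af9_ag: evaluation at the geometric point of the spectrum of a field.
-/

open CategoryTheory Limits AlgebraicGeometry TopologicalSpace Opposite Pretriangulated

namespace Pool.Agent.H72.MP

open Tw

noncomputable section

section

variable (F k : Type) [Field F] [Field k] [Algebra F k] [Algebra.IsSeparable F k]

/-- The geometric point of `Spec F`. -/
def ptY : Spec (.of k) ⟶ Spec (.of F) :=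
  Spec.map (CommRingCat.ofHom (algebraMap F k))

lemma ptY_we : WeaklyEtale (ptY F k) := weaklyEtale_of_isSeparable F k

variable {k} {G : Type} [Group G] [TopologicalSpace G] [IsTopologicalGroup G]
  (ρ : G →* (k ≃+* k))

/-- The point of the twisted site. -/
def pt : Tw @WeaklyEtale ρ (Spec (.of F)) := ptOf @WeaklyEtale ρ (ptY F k) (ptY_we F k)

variable {F ρ} [IsAlgClosed k]

/-- Coverings of a geometric point are trivial. -/
lemma point_sieve {X : Scheme.{0}} {z : Spec (.of k) ⟶ X} {hz : WeaklyEtale z}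
    (S : Sieve (ptOf @WeaklyEtale ρ z hz)) (hS : S ∈ Tw.topo @WeaklyEtale ρ X _) :
    S.arrows (𝟙 _) := by
  obtain ⟨R, hR, hRS⟩ := mem_topo_iff.1 hS
  obtain ⟨ι, Z, g, rfl⟩ := R.exists_eq_ofArrows
  have hR' : (Presieve.ofArrows Z g).map (forget @WeaklyEtale ρ X) ∈
    Scheme.proetalePrecoverage (ptOf @WeaklyEtale ρ z hz).T := hR
  rw [Presieve.map_ofArrows] at hR'
  obtain ⟨T, f, hf, s, hs⟩ := exists_section_of_cover k _ hR'
  obtain ⟨i⟩ := hf
  let s' : ptOf @WeaklyEtale ρ z hz ⟶ Z i :=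
    { f := s
      c := ⟨fun t => ((g i).c (s t))⁻¹ * 1, by fun_prop⟩
      w := by
        have h1 : (g i).f ≫ (ptOf @WeaklyEtale ρ z hz).π = (Z i).π := (g i).w
        have h2 : s ≫ (g i).f = 𝟙 _ := hs
        exact (congrArg (fun q => s ≫ q) h1.symm).trans ((Category.assoc _ _ _).symm.trans
          ((congrArg (fun q => q ≫ z) h2).trans (Category.id_comp _)))
      h := by
        refine Twc.cancel (g := s) (g i).h ?_
        have h2 : s ≫ (g i).f = 𝟙 _ := hs
        rw [h2]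
        exact Twc.id _ }
  have h3 : s' ≫ g i = 𝟙 _ := by
    refine hom_ext hs (fun t => ?_)
    change (g i).c (s t) * (((g i).c (s t))⁻¹ * 1) = 1
    rw [mul_one, mul_inv_cancel]
  rw [← h3]
  exact S.downward_closed (hRS _ _ ⟨i⟩) _

variable {ℓ : ℕ} [Fact ℓ.Prime] {X : Scheme.{0}} (z : Spec (.of k) ⟶ X) (hz : WeaklyEtale z)

/-- The sections over the point. -/
abbrev sp (M : Md @WeaklyEtale ρ X ℓ) : Type 1 :=
  M.val.obj (op (ptOf @WeaklyEtale ρ z hz))

/-- The action of a morphism on the sections over the point -/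
abbrev spMap {M N : Md @WeaklyEtale ρ X ℓ} (f : M ⟶ N) : sp z hz M →+ sp z hz N :=
  (f.val.app (op (ptOf @WeaklyEtale ρ z hz))).hom.toAddMonoidHom

/-- Exactness at the point. -/
lemma sp_exact (S : ShortComplex (Md @WeaklyEtale ρ X ℓ)) (hS : S.Exact) (y : sp z hz S.X₂)
    (hy : spMap z hz S.g y = 0) : ∃ x : sp z hz S.X₁, spMap z hz S.f x = y := by
  obtain ⟨T, hT, hT'⟩ := (exact_iff S).1 hS _ y hy
  obtain ⟨x, hx⟩ := hT' _ (𝟙 _) (point_sieve T hT)
  refine ⟨x, hx.trans ?_⟩
  exact rst_id S.X₂.val _ y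

lemma sp_epi {M N : Md @WeaklyEtale ρ X ℓ} (f : M ⟶ N) [Epi f] (y : sp z hz N) :
    ∃ x : sp z hz M, spMap z hz f x = y := by
  obtain ⟨T, hT, hT'⟩ := (epi_iff_locSurj f).1 inferInstance _ y
  obtain ⟨x, hx⟩ := hT' _ (𝟙 _) (point_sieve T hT)
  refine ⟨x, hx.trans ?_⟩
  exact rst_id N.val _ y

lemma sp_mono {M N : Md @WeaklyEtale ρ X ℓ} (f : M ⟶ N) [Mono f] (x : sp z hz M)
    (hx : spMap z hz f x = 0) : x = 0 :=
  (mono_iff_injective f).1 inferInstance _ (hx.trans (map_zero _).symm)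

lemma sp_zero {M : Md @WeaklyEtale ρ X ℓ} (hM : IsZero M) (x : sp z hz M) : x = 0 := by
  have h1 : 𝟙 M = 0 := hM.eq_of_src _ _
  have h2 : spMap z hz (𝟙 M) x = spMap z hz (0 : M ⟶ M) x := by rw [h1]
  exact h2

end

section gpt

variable {p : ℕ} [Fact p.Prime]

instance kb_sep : Algebra.IsSeparable (ZMod p) (kb p) := by
  have := kb_isAlgebraic p
  infer_instance

instance kb_closed : IsAlgClosed (kb p) := kb_isAlgClosed p

/-- Automorphisms of the residue field fix the geometric point. -/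
lemma spec_w (τ : kb p ≃+* kb p) : Spec.map (CommRingCat.ofHom τ.toRingHom) ≫
    ptY (ZMod p) (kb p) = ptY (ZMod p) (kb p) := by
  unfold ptY
  rw [← Spec.map_comp]
  congr 1
  ext1
  exact RingHom.ext_zmod _ _

variable (p) in
/-- The geometric point, for the group `G`. -/
abbrev ptg {G : Type} [Group G] [TopologicalSpace G] [IsTopologicalGroup G]
    (ρ : G →* (kb p ≃+* kb p)) : Tw @WeaklyEtale ρ (Spec (.of (ZMod p))) :=
  ptOf @WeaklyEtale ρ (ptY (ZMod p) (kb p)) (ptY_we _ _)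

/-- The endomorphism of the point defined by an element of the group. -/
def gE {G : Type} [Group G] [TopologicalSpace G] [IsTopologicalGroup G]
    (ρ : G →* (kb p ≃+* kb p)) (g : G) : ptg p ρ ⟶ ptg p ρ :=
  ptEnd (P := @WeaklyEtale) (ptY (ZMod p) (kb p)) (ptY_we _ _) g (spec_w _)

end gpt

end

end Pool.Agent.H72.MP
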