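import Pool.Agent.H7.MPN.Pt
import Pool.Agent.H7.MPN.Lev
import Pool.Agent.H72.MP.Mod.A1

/-!
Negative half of MP_657af9_ag: weights of the homology at the point.
-/

open CategoryTheory Limits AlgebraicGeometry TopologicalSpace Opposite Pretriangulated

namespace Pool.Agent.H72.MP

open Tw

attribute [local instance] secModule

set_option linter.unusedSectionVars false

noncomputable section

section lin

lemma aeval_intertwine {R V W : Type*} [CommRing R] [AddCommGroup V] [Module R V]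
    [AddCommGroup W] [Module R W] (A : Module.End R V) (B : Module.End R W) (g : V →ₗ[R] W)
    (h : ∀ x, g (A x) = B (g x)) (P : Polynomial R) (x : V) :
    g (Polynomial.aeval A P x) = Polynomial.aeval B P (g x) := by
  induction P using Polynomial.induction_on generalizing x with
  | C a => simp
  | add P Q hP hQ => simp [hP, hQ]
  | monomial n a ih =>
    rw [pow_succ, ← mul_assoc, map_mul (Polynomial.aeval A) (_ * _) _,
      map_mul (Polynomial.aeval B) (_ * _) _, Polynomial.aeval_X, Polynomial.aeval_X,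
      Module.End.mul_apply, Module.End.mul_apply, ih, h]

end lin

section rstl

variable {k : Type} [Field k] {G : Type} [Group G]
  [TopologicalSpace G] [IsTopologicalGroup G] {ρ : G →* (k ≃+* k)} {X Z : Scheme.{0}}
  {ℓ : ℕ} [Fact ℓ.Prime] {P : MorphismProperty Scheme.{0}}
  [P.IsStableUnderBaseChange] [P.IsStableUnderComposition] [P.HasOfPostcompProperty P]

/-- sections of a morphism as a linear map -/
def secL {M N : Md P ρ X ℓ} (f : M ⟶ N) (U : Tw P ρ X) :
    M.val.obj (op U) →ₗ[ℚ_[ℓ]] N.val.obj (op U) where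
  toFun x := f.val.app (op U) x
  map_add' x y := (f.val.app (op U)).hom.map_add x y
  map_smul' a x := (f.val.app (op U)).hom.map_smul (cst (op U) a) x

lemma secL_rst {M N : Md P ρ X ℓ} (f : M ⟶ N) {U V : Tw P ρ X} (u : V ⟶ U)
    (x : M.val.obj (op U)) : secL f V (rstL M u x) = rstL N u (secL f U x) :=
  PresheafOfModules.naturality_apply f.val u.op x

lemma rstL_comp (M : Md P ρ X ℓ) {U V W : Tw P ρ X} (v : W ⟶ V) (u : V ⟶ U)
    (x : M.val.obj (op U)) : rstL M (v ≫ u) x = rstL M v (rstL M u x) :=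
  rst_comp M.val v u x

lemma rstL_id (M : Md P ρ X ℓ) (U : Tw P ρ X) (x : M.val.obj (op U)) :
    rstL M (𝟙 U) x = x := rst_id M.val U x

lemma aeval_conj (M : Md P ρ X ℓ) {U V : Tw P ρ X} (θ : U ⟶ V) (θ' : V ⟶ U) (h1 : θ ≫ θ' = 𝟙 _)
    (u : U ⟶ U) (v : V ⟶ V) (h : u ≫ θ = θ ≫ v) (Q : Polynomial ℚ_[ℓ])
    (hQ : Polynomial.aeval (show Module.End ℚ_[ℓ] (M.val.obj (op V)) from rstL M v) Q = 0) :
    Polynomial.aeval (show Module.End ℚ_[ℓ] (M.val.obj (op U)) from rstL M u) Q = 0 := by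
  refine LinearMap.ext fun x => ?_
  have h2 : x = rstL M θ (rstL M θ' x) := by
    rw [← rstL_comp, h1, rstL_id]
  rw [h2]
  have h3 := aeval_intertwine (show Module.End ℚ_[ℓ] (M.val.obj (op V)) from rstL M v)
    (show Module.End ℚ_[ℓ] (M.val.obj (op U)) from rstL M u) (rstL M θ) (fun x => by
      change rstL M θ (rstL M v x) = rstL M u (rstL M θ x)
      rw [← rstL_comp, ← rstL_comp, h]) Q (rstL M θ' x)
  rw [← h3, hQ]
  simp

end rstl

section good

variable {p : ℕ} [Fact p.Prime] (ℓ : ℕ) [Fact ℓ.Prime]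

/-- The endomorphism is annihilated by a polynomial whose roots are Weil numbers of weight
at most `a`. -/
def Good (p : ℕ) (a : ℤ) {V : Type*} [AddCommGroup V] [Module ℚ_[ℓ] V] (A : Module.End ℚ_[ℓ] V) :
    Prop :=
  ∃ Q : Polynomial ℚ_[ℓ], Q ≠ 0 ∧ (∀ r : AlgebraicClosure ℚ_[ℓ],
    Polynomial.aeval r Q = 0 → ∃ v ≤ a, IsWeil ℓ p v r) ∧ Polynomial.aeval A Q = 0

variable {ℓ}

lemma Good.zero {a : ℤ} {V : Type*} [AddCommGroup V] [Module ℚ_[ℓ] V] (A : Module.End ℚ_[ℓ] V)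
    (h : ∀ x : V, x = 0) : Good ℓ p a A :=
  ⟨1, one_ne_zero, fun r hr => by simp at hr, LinearMap.ext fun x => (h _).trans (h _).symm⟩

lemma Good.of_surj {a : ℤ} {V W : Type*} [AddCommGroup V] [Module ℚ_[ℓ] V]
    [AddCommGroup W] [Module ℚ_[ℓ] W] {A : Module.End ℚ_[ℓ] V} {B : Module.End ℚ_[ℓ] W}
    (g : V →ₗ[ℚ_[ℓ]] W) (h : ∀ x, g (A x) = B (g x)) (hg : Function.Surjective g)
    (hA : Good ℓ p a A) : Good ℓ p a B := by
  obtain ⟨Q, h0, h1, h2⟩ := hA
  refine ⟨Q, h0, h1, LinearMap.ext fun y => ?_⟩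
  obtain ⟨x, rfl⟩ := hg y
  rw [← aeval_intertwine A B g h, h2]
  simp

lemma Good.of_inj {a : ℤ} {V W : Type*} [AddCommGroup V] [Module ℚ_[ℓ] V]
    [AddCommGroup W] [Module ℚ_[ℓ] W] {A : Module.End ℚ_[ℓ] V} {B : Module.End ℚ_[ℓ] W}
    (g : V →ₗ[ℚ_[ℓ]] W) (h : ∀ x, g (A x) = B (g x)) (hg : Function.Injective g)
    (hB : Good ℓ p a B) : Good ℓ p a A := by
  obtain ⟨Q, h0, h1, h2⟩ := hB
  refine ⟨Q, h0, h1, LinearMap.ext fun x => hg ?_⟩
  rw [aeval_intertwine A B g h, h2]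
  simp

lemma Good.exact {a : ℤ} {U V W : Type*} [AddCommGroup U] [Module ℚ_[ℓ] U]
    [AddCommGroup V] [Module ℚ_[ℓ] V] [AddCommGroup W] [Module ℚ_[ℓ] W]
    {A : Module.End ℚ_[ℓ] U} {B : Module.End ℚ_[ℓ] V} {C : Module.End ℚ_[ℓ] W}
    (f : U →ₗ[ℚ_[ℓ]] V) (g : V →ₗ[ℚ_[ℓ]] W) (hf : ∀ x, f (A x) = B (f x))
    (hg : ∀ x, g (B x) = C (g x)) (hfg : ∀ y, g y = 0 → ∃ x, f x = y)
    (hA : Good ℓ p a A) (hC : Good ℓ p a C) : Good ℓ p a B := by
  obtain ⟨Q, h0, h1, h2⟩ := hA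
  obtain ⟨R, k0, k1, k2⟩ := hC
  refine ⟨Q * R, mul_ne_zero h0 k0, fun r hr => ?_, LinearMap.ext fun y => ?_⟩
  · rw [map_mul, mul_eq_zero] at hr
    exact hr.elim (h1 r) (k1 r)
  · rw [map_mul, Module.End.mul_apply]
    obtain ⟨x, hx⟩ := hfg (Polynomial.aeval B R y) (by
      rw [aeval_intertwine B C g hg, k2]; simp)
    rw [← hx, ← aeval_intertwine A B f hf, h2]
    simp

lemma Good.mono {a b : ℤ} (hab : a ≤ b) {V : Type*} [AddCommGroup V] [Module ℚ_[ℓ] V]
    {A : Module.End ℚ_[ℓ] V} (hA : Good ℓ p a A) : Good ℓ p b A := by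
  obtain ⟨Q, h0, h1, h2⟩ := hA
  exact ⟨Q, h0, fun r hr => by
    obtain ⟨v, hv, hw⟩ := h1 r hr
    exact ⟨v, hv.trans hab, hw⟩, h2⟩

end good

section pure

variable {p ℓ : ℕ} [Fact p.Prime] [Fact ℓ.Prime]

lemma isWeil_zero {q : ℕ} (hq : 0 < q) {v : ℤ} : ¬ IsWeil ℓ q v 0 := by
  rintro ⟨-, h⟩
  have h1 := h 0 (by rw [minpoly.zero]; simp)
  rw [norm_zero] at h1
  have h2 : (0 : ℝ) < (q : ℝ) ^ v := zpow_pos (by exact_mod_cast hq) v
  rw [← h1] at h2
  norm_num at h2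

section push

lemma fst_z {T Y Z : Scheme.{0}} (a : T ⟶ Y) (i : Z ⟶ Y) [IsIso i] :
    pullback.fst a i ≫ a ≫ inv i = pullback.snd a i := by
  rw [pullback.condition_assoc, IsIso.hom_inv_id, Category.comp_id]

lemma lift_h {T Y Z : Scheme.{0}} (a : T ⟶ Y) (i : Z ⟶ Y) [IsIso i] :
    𝟙 T ≫ a = (a ≫ inv i) ≫ i := by simp

lemma fst_lift {T Y Z : Scheme.{0}} (a : T ⟶ Y) (i : Z ⟶ Y) [IsIso i] :
    pullback.fst a i ≫ pullback.lift (𝟙 T) (a ≫ inv i) (lift_h a i) = 𝟙 _ := by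
  refine pullback.hom_ext ?_ ?_
  · rw [Category.assoc, pullback.lift_fst, Category.comp_id, Category.id_comp]
  · rw [Category.assoc, pullback.lift_snd, fst_z, Category.id_comp]

variable {Z : Scheme.{0}} (i : Z ⟶ Spec (.of (ZMod p))) [IsIso i]

/-- comparison of the inverse image of the point with the point of `Z` -/
def th1 : (incl (ρs p) Z).obj ((pull i).obj (ptg p (ρs p))) ⟶
    ptOf ⊤ (ρs p) (ptY (ZMod p) (kb p) ≫ inv i) trivial where
  f := pullback.fst (ptY (ZMod p) (kb p)) i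
  c := 1
  w := fst_z _ _
  h := Twc.comap _ _

/-- comparison of the inverse image of the point with the point of `Z` -/
def th2 : ptOf ⊤ (ρs p) (ptY (ZMod p) (kb p) ≫ inv i) trivial ⟶
    (incl (ρs p) Z).obj ((pull i).obj (ptg p (ρs p))) where
  f := pullback.lift (𝟙 _) (ptY (ZMod p) (kb p) ≫ inv i) (lift_h _ _)
  c := 1
  w := pullback.lift_snd _ _ _
  h := twc_lift (lift_h _ _) (Twc.id _)

lemma th12 : th1 i ≫ th2 i = 𝟙 _ :=
  hom_ext (fst_lift _ _) (fun _ => one_mul _)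

lemma good_push (L : Shs p ℓ Z) {v a : ℤ} (hL : PointwisePure v L) (hv : v ≤ a) {φ : Gs p}
    (hφ : IsFrob p φ) :
    Good ℓ p a (show Module.End ℚ_[ℓ] _ from
      rstL ((pushM @WeaklyEtale (ρs p) ℓ i).obj L) (gE (ρs p) φ)) := by
  obtain ⟨Lb, -, ⟨e⟩, hp⟩ := hL
  have hz : Spec.map (CommRingCat.ofHom ((ρs p (φ ^ 1))⁻¹ : kb p ≃+* kb p).toRingHom) ≫
      (ptY (ZMod p) (kb p) ≫ inv i) = ptY (ZMod p) (kb p) ≫ inv i := by
    rw [← Category.assoc, spec_w]
  have key := hp φ hφ 1 one_pos (ptY (ZMod p) (kb p) ≫ inv i) hz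
  set A : Module.End ℚ_[ℓ] (Lb.val.obj (op (ptOf ⊤ (ρs p) (ptY (ZMod p) (kb p) ≫ inv i)
        trivial))) := rstL Lb (ptEnd (ptY (ZMod p) (kb p) ≫ inv i) trivial (φ ^ 1) hz) with hA
  have hw : ∀ r : AlgebraicClosure ℚ_[ℓ],
    Polynomial.aeval r (minpoly ℚ_[ℓ] A) = 0 → IsWeil ℓ p v r := fun r hr => by
      have := key r hr
      rwa [pow_one] at this
  have h0 : minpoly ℚ_[ℓ] A ≠ 0 := by
    intro h0
    refine isWeil_zero (Fact.out : p.Prime).pos (hw 0 ?_)
    rw [h0, map_zero]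
  have h1 : Polynomial.aeval A (minpoly ℚ_[ℓ] A) = 0 := minpoly.aeval _ _
  refine ⟨minpoly ℚ_[ℓ] A, h0, fun r hr => ⟨v, hv, hw r hr⟩, ?_⟩
  have h2 := aeval_conj Lb (th1 i) (th2 i) (th12 i)
    ((incl (ρs p) Z).map ((pull i).map (gE (ρs p) φ)))
    (ptEnd (ptY (ZMod p) (kb p) ≫ inv i) trivial (φ ^ 1) hz) (by
      refine hom_ext ?_ (fun t => ?_)
      · change ((pull i).map (gE (ρs p) φ)).f ≫ pullback.fst (ptY (ZMod p) (kb p)) i =
          pullback.fst (ptY (ZMod p) (kb p)) i ≫ Spec.map (CommRingCat.ofHom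
            ((ρs p (φ ^ 1))⁻¹ : kb p ≃+* kb p).toRingHom)
        rw [pow_one]
        exact pullback.lift_fst _ _ _
      · change φ * 1 = 1 * φ ^ 1
        rw [pow_one, mul_one, one_mul]) _ h1
  refine LinearMap.ext fun x => ?_
  obtain ⟨y, rfl⟩ : ∃ y, secL e.hom _ y = x := ⟨secL e.inv _ x, by
    have h3 : secL e.hom _ (secL e.inv _ x) = secL (e.inv ≫ e.hom) _ x := rfl
    rw [h3, e.inv_hom_id]
    rfl⟩
  have h4 := aeval_intertwine (show Module.End ℚ_[ℓ] (((smallM (ρs p) Z ℓ).obj Lb).val.obj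
      (op ((pull i).obj (ptg p (ρs p))))) from rstL ((smallM (ρs p) Z ℓ).obj Lb)
        ((pull i).map (gE (ρs p) φ)))
    (show Module.End ℚ_[ℓ] (L.val.obj (op ((pull i).obj (ptg p (ρs p))))) from rstL L
        ((pull i).map (gE (ρs p) φ))) (secL e.hom _) (fun x => secL_rst e.hom _ x)
        (minpoly ℚ_[ℓ] A) y
  have h5 : Polynomial.aeval (show Module.End ℚ_[ℓ] (((smallM (ρs p) Z ℓ).obj Lb).val.obj
      (op ((pull i).obj (ptg p (ρs p))))) from rstL ((smallM (ρs p) Z ℓ).obj Lb)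
        ((pull i).map (gE (ρs p) φ))) (minpoly ℚ_[ℓ] A) y = 0 := by
    exact congrArg (fun q => q y) h2
  rw [h5, map_zero] at h4
  exact h4.symm

end push

lemma sec_zero_of_isEmpty {k : Type} [Field k] {G : Type} [Group G]
    [TopologicalSpace G] [IsTopologicalGroup G] {ρ : G →* (k ≃+* k)} {X : Scheme.{0}}
    {P : MorphismProperty Scheme.{0}}
    [P.IsStableUnderBaseChange] [P.IsStableUnderComposition] [P.HasOfPostcompProperty P]
    (M : Md P ρ X ℓ) (U : Tw P ρ X) [IsEmpty U.T] (x : M.val.obj (op U)) : x = 0 := by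
  have h1 : (1 : (ringS P ρ X ℓ).obj.obj (op U)) = 0 :=
    ULift.down_injective (ContinuousMap.ext fun t => isEmptyElim t)
  rw [← one_smul ((ringS P ρ X ℓ).obj.obj (op U)) x, h1, zero_smul]

/-- The cohomology of an object placed in one degree. -/
def singleIso {A : Type*} [Category A] [Abelian A] [HasDerivedCategory A] (E : A) (n : ℤ) :
    (DerivedCategory.homologyFunctor A n).obj ((DerivedCategory.singleFunctor A n).obj E) ≅ E :=
  (DerivedCategory.homologyFunctorFactors A n).app ((HomologicalComplex.single A _ n).obj E) ≪≫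
    (HomologicalComplex.homologyFunctorSingleIso A (ComplexShape.up ℤ) n).app E

lemma Good.of_iso {a : ℤ} {M N : Shs p ℓ (Spec (.of (ZMod p)))} (e : M ≅ N) {φ : Gs p}
    (h : Good ℓ p a (show Module.End ℚ_[ℓ] _ from rstL N (gE (ρs p) φ))) :
    Good ℓ p a (show Module.End ℚ_[ℓ] _ from rstL M (gE (ρs p) φ)) := by
  refine Good.of_inj (secL e.hom _) (fun x => secL_rst e.hom _ x) (fun x y hxy => ?_) h
  exact (mono_iff_injective e.hom).1 inferInstance _ hxy

/-- Weights of the cohomology at the point. -/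
lemma WLE.good {a : ℤ} {K : Ds p ℓ (Spec (.of (ZMod p)))} (hK : WLE a K) {φ : Gs p}
    (hφ : IsFrob p φ) (n : ℤ) :
    Good ℓ p (a + n) (show Module.End ℚ_[ℓ] _ from
      rstL ((DerivedCategory.homologyFunctor _ n).obj K) (gE (ρs p) φ)) := by
  induction hK with
  | of hK =>
    obtain ⟨Z, i, hi, L, E, j, v, -, hP, hE, hv, ⟨e⟩⟩ := hK
    by_cases hn : n = j
    · subst hn
      refine Good.of_iso ((DerivedCategory.homologyFunctor _ n).mapIso e ≪≫ singleIso E n) ?_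
      obtain ⟨m, hm, -⟩ := hE
      refine Good.of_inj (secL m _) (fun x => secL_rst m _ x)
        ((mono_iff_injective m).1 hm _) ?_
      rcases isEmpty_or_nonempty Z with hZ | hZ
      · refine Good.zero _ fun x => ?_
        have : IsEmpty ((pull i).obj (ptg p (ρs p))).T :=
          ⟨fun t => isEmptyElim (((pull i).obj (ptg p (ρs p))).π t)⟩
        exact sec_zero_of_isEmpty L ((pull i).obj (ptg p (ρs p))) x
      · have := isIso_of_immersion_field (ZMod p) Z i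
        exact (good_push i L hP hv hφ)
    · exact Good.zero _ fun x => sp_zero _ _ ((single_homology_zero E hn).of_iso
        ((DerivedCategory.homologyFunctor _ n).mapIso e)) x
  | zero hK =>
    exact Good.zero _ fun x => sp_zero _ _ ((DerivedCategory.homologyFunctor _ n).map_isZero hK) x
  | iso e _ ih => exact Good.of_iso ((DerivedCategory.homologyFunctor _ n).mapIso e.symm) ih
  | ext T hT _ _ h1 h3 =>
    exact Good.exact (secL ((DerivedCategory.homologyFunctor _ n).map T.mor₁) _)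
      (secL ((DerivedCategory.homologyFunctor _ n).map T.mor₂) _)
      (fun x => secL_rst _ _ x) (fun x => secL_rst _ _ x)
      (fun y hy => sp_exact _ _ _ (DerivedCategory.HomologySequence.exact₂ T hT n) y hy) h1 h3

end pure

end

end Pool.Agent.H72.MP
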